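import Pool.Agent.Helper99.SZ.Stmts2

/-!
# The leading term of a power
-/

set_option autoImplicit false

namespace Pool.Helper99.SZ

open NumberField

section odb

variable {L : Type} [Field L] [NumberField L] {P : Ideal (𝓞 L)}

/-- the rules for `Dv` that are used -/
structure odbR (P : Ideal (𝓞 L)) : Prop where
  nat : ∀ n : ℕ, Dv P 0 (n : L)
  mono : ∀ (s t : ℕ) (x : L), s ≤ t → Dv P t x → Dv P s x
  add : ∀ (t : ℕ) (x y : L), Dv P t x → Dv P t y → Dv P t (x + y)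
  neg : ∀ (t : ℕ) (x : L), Dv P t x → Dv P t (-x)
  mul : ∀ (s t : ℕ) (x y : L), Dv P s x → Dv P t y → Dv P (s + t) (x * y)
  zero : ∀ t : ℕ, Dv P t (0 : L)

theorem odb_rules (h : ST_DVB) (hP : P.IsPrime) (hP0 : P ≠ ⊥) : odbR P := by
  obtain ⟨h1, h2, h3, h4, h5, -, -, -, -⟩ := h L P hP hP0
  refine ⟨fun n => ?_, h2, h3, h4, h5, fun t => ?_⟩
  · have := h1 (n : 𝓞 L)
    have e : ((n : 𝓞 L) : L) = (n : L) := by push_cast; rfl
    rwa [e] at this
  · refine ⟨0, 1, fun h => hP.ne_top ((Ideal.eq_top_iff_one P).2 h), (P ^ t).zero_mem, ?_⟩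
    simp

theorem odb_sub (h : odbR P) (t : ℕ) (x y : L) (hx : Dv P t x) (hy : Dv P t y) :
    Dv P t (x - y) := by
  rw [sub_eq_add_neg]
  exact h.add t x (-y) hx (h.neg t y hy)

theorem odb_sum (h : odbR P) (t : ℕ) {J : Type} (s : Finset J) (f : J → L)
    (hf : ∀ j ∈ s, Dv P t (f j)) : Dv P t (∑ j ∈ s, f j) := by
  classical
  induction s using Finset.induction_on with
  | empty => rw [Finset.sum_empty]; exact h.zero t
  | insert a s ha ih =>
    rw [Finset.sum_insert ha]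
    exact h.add t _ _ (hf a (Finset.mem_insert_self a s))
      (ih fun j hj => hf j (Finset.mem_insert_of_mem hj))

theorem odb_pow (h : odbR P) (a : ℕ) (x : L) (hx : Dv P a x) (k : ℕ) : Dv P (k * a) (x ^ k) := by
  induction k with
  | zero =>
    rw [Nat.zero_mul, pow_zero]
    have := h.nat 1
    rwa [Nat.cast_one] at this
  | succ k ih =>
    rw [pow_succ]
    have := h.mul _ _ _ _ ih hx
    exact h.mono _ _ _ (by rw [Nat.succ_mul]) this

theorem odb_natmul (h : odbR P) (n t : ℕ) (x : L) (hx : Dv P t x) : Dv P t ((n : L) * x) := by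
  have := h.mul 0 t _ _ (h.nat n) hx
  rwa [zero_add] at this

/-- one `p`-th power -/
theorem odb_one (h : odbR P) {p : ℕ} (hp : p.Prime) {E a : ℕ} (hE : E < (p - 1) * a)
    (hpE : Dv P E (p : L)) {y : L} (hy : Dv P a (y - 1)) :
    Dv P (a + E + 1) (y ^ p - 1 - (p : L) * (y - 1)) := by
  obtain ⟨q, rfl⟩ : ∃ q, p = q + 2 := ⟨p - 2, by have := hp.two_le; omega⟩
  have ha : 1 ≤ a := by
    rcases Nat.eq_zero_or_pos a with h0 | h0
    · rw [h0, Nat.mul_zero] at hE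
      exact absurd hE (Nat.not_lt_zero _)
    · exact h0
  obtain ⟨α, hα⟩ : ∃ α, α = y - 1 := ⟨_, rfl⟩
  rw [← hα] at hy ⊢
  have e1 : y = α + 1 := by rw [hα]; ring
  have e2 : y ^ (q + 2) - 1 - ((q + 2 : ℕ) : L) * α =
      ∑ i ∈ Finset.range (q + 1), α ^ (i + 2) * ((q + 2).choose (i + 2) : L) := by
    rw [e1, add_pow]
    have e3 : ∑ m ∈ Finset.range (q + 2 + 1), α ^ m * 1 ^ (q + 2 - m) * ((q + 2).choose m : L) =
        ∑ m ∈ Finset.range (q + 2 + 1), α ^ m * ((q + 2).choose m : L) :=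
      Finset.sum_congr rfl fun m _ => by rw [one_pow, mul_one]
    rw [e3, Finset.sum_range_succ', Finset.sum_range_succ']
    rw [Nat.choose_zero_right, zero_add, Nat.choose_one_right, pow_zero, pow_one]
    push_cast
    ring
  rw [e2]
  refine odb_sum h _ _ _ fun i hi => ?_
  rw [Finset.mem_range] at hi
  rcases Nat.lt_or_ge i q with hiq | hiq
  · obtain ⟨m, hm⟩ := hp.dvd_choose_self (k := i + 2) (by omega) (by omega)
    rw [hm, Nat.cast_mul]
    have h1 : Dv P ((i + 2) * a + E) (α ^ (i + 2) * ((q + 2 : ℕ) : L)) :=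
      h.mul _ _ _ _ (odb_pow h a α hy (i + 2)) hpE
    have h2 := odb_natmul h m _ _ h1
    have h3 : α ^ (i + 2) * (((q + 2 : ℕ) : L) * (m : L)) =
        (m : L) * (α ^ (i + 2) * ((q + 2 : ℕ) : L)) := by ring
    rw [h3]
    refine h.mono _ _ _ ?_ h2
    have : 2 * a ≤ (i + 2) * a := Nat.mul_le_mul_right _ (by omega)
    omega
  · have hiq' : i = q := by omega
    subst hiq'
    rw [Nat.choose_self, Nat.cast_one, mul_one]
    refine h.mono _ _ _ ?_ (odb_pow h a α hy (i + 2))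
    have h4 : (i + 2) * a = (i + 2 - 1) * a + a := by
      have : i + 2 = (i + 2 - 1) + 1 := by omega
      conv_lhs => rw [this, Nat.succ_mul]
    omega

theorem odb_main (h : odbR P) {p : ℕ} (hp : p.Prime) {E a : ℕ} (hE : E < (p - 1) * a)
    (hpE : Dv P E (p : L)) {x : L} (hx : Dv P a (x - 1)) (j : ℕ) :
    Dv P (a + j * E + 1) (x ^ (p ^ j) - 1 - ((p ^ j : ℕ) : L) * (x - 1)) ∧
      Dv P (a + j * E) (x ^ (p ^ j) - 1) := by
  induction j with
  | zero =>
    rw [pow_zero, pow_one, Nat.zero_mul, add_zero, Nat.cast_one, one_mul, sub_self]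
    exact ⟨h.zero _, hx⟩
  | succ j ih =>
    obtain ⟨ih1, ih2⟩ := ih
    have hE' : E < (p - 1) * (a + j * E) :=
      lt_of_lt_of_le hE (Nat.mul_le_mul_left _ (Nat.le_add_right _ _))
    have h1 := odb_one h hp hE' hpE ih2
    have h2 := h.mul _ _ _ _ hpE ih1
    have e1 : x ^ (p ^ (j + 1)) = (x ^ (p ^ j)) ^ p := by rw [← pow_mul, pow_succ]
    have h3 : Dv P (a + (j + 1) * E + 1)
        (x ^ (p ^ (j + 1)) - 1 - ((p ^ (j + 1) : ℕ) : L) * (x - 1)) := by
      have h4 := h.add (a + j * E + E + 1) _ _ h1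
        (h.mono (a + j * E + E + 1) _ _ (by omega) h2)
      have e2 : (x ^ (p ^ j)) ^ p - 1 - (p : L) * (x ^ (p ^ j) - 1) +
          (p : L) * (x ^ (p ^ j) - 1 - ((p ^ j : ℕ) : L) * (x - 1)) =
          x ^ (p ^ (j + 1)) - 1 - ((p ^ (j + 1) : ℕ) : L) * (x - 1) := by
        rw [e1]
        push_cast
        ring
      rw [e2] at h4
      refine h.mono _ _ _ ?_ h4
      rw [Nat.succ_mul]
      omega
    refine ⟨h3, ?_⟩
    have h5 := h.mul _ _ _ _ (odb_pow h E (p : L) hpE (j + 1)) hx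
    have h6 := h.add (a + (j + 1) * E) _ _ (h.mono _ _ _ (Nat.le_succ _) h3)
      (h.mono (a + (j + 1) * E) _ _ (by omega) h5)
    have e3 : x ^ (p ^ (j + 1)) - 1 - ((p ^ (j + 1) : ℕ) : L) * (x - 1) +
        (p : L) ^ (j + 1) * (x - 1) = x ^ (p ^ (j + 1)) - 1 := by
      push_cast
      ring
    rwa [e3] at h6

theorem odb_c0 (h : odbR P) {b : ℕ} {γ : L} (hγ : Dv P b γ) (c : ℕ) :
    Dv P (b + b) ((1 + γ) ^ c - 1 - (c : L) * γ) := by
  induction c with
  | zero =>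
    rw [pow_zero, Nat.cast_zero, zero_mul, sub_self, sub_zero]
    exact h.zero _
  | succ c ih =>
    have e1 : (1 + γ) ^ (c + 1) - 1 - ((c + 1 : ℕ) : L) * γ =
        ((1 + γ) ^ c - 1 - (c : L) * γ) + ((1 + γ) ^ c - 1 - (c : L) * γ) * γ +
          (c : L) * (γ * γ) := by
      push_cast
      ring
    rw [e1]
    refine h.add _ _ _ (h.add _ _ _ ih ?_) ?_
    · exact h.mono _ _ _ (Nat.le_add_right _ _) (h.mul _ _ _ _ ih hγ)
    · exact odb_natmul h c _ _ (h.mul _ _ _ _ hγ hγ)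

end odb

theorem st_ODB (hDVB : ST_DVB) : ST_ODB := by
  intro L _ _ P hP hP0 p hp E a hE1 hE hpE x hx j c0
  have h := odb_rules hDVB hP hP0
  have ha : 1 ≤ a := by
    rcases Nat.eq_zero_or_pos a with h0 | h0
    · rw [h0, Nat.mul_zero] at hE
      exact absurd hE (Nat.not_lt_zero _)
    · exact h0
  obtain ⟨h1, h2⟩ := odb_main h hp hE hpE hx j
  have h3 := odb_c0 h h2 c0
  have h4 := odb_natmul h c0 _ _ h1
  have h5 := h.add (a + j * E + 1) _ _ (h.mono (a + j * E + 1) _ _ (by omega) h3) h4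
  have e1 : (1 + (x ^ (p ^ j) - 1)) ^ c0 - 1 - (c0 : L) * (x ^ (p ^ j) - 1) +
      (c0 : L) * (x ^ (p ^ j) - 1 - ((p ^ j : ℕ) : L) * (x - 1)) =
      x ^ (c0 * p ^ j) - 1 - ((c0 * p ^ j : ℕ) : L) * (x - 1) := by
    have e2 : x ^ (c0 * p ^ j) = (x ^ (p ^ j)) ^ c0 := by rw [← pow_mul, mul_comm]
    have e3 : (1 : L) + (x ^ (p ^ j) - 1) = x ^ (p ^ j) := by ring
    rw [e2, e3]
    push_cast
    ring
  rwa [e1] at h5

end Pool.Helper99.SZ
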