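import Pool.Agent.Helper99.SZ.Stmts2

/-!
# The data for the twelfth powers
-/

set_option autoImplicit false

namespace Pool.Helper99.SZ

open NumberField

theorem p12_val {L : Type} [Field L] {n : ℕ} (g0 : L) (g : Fin n → L) (a : ℤ × (Fin n → ℤ)) :
    (g0 ^ 12) ^ a.1 * ∏ i, (g i ^ 12) ^ (a.2 i) =
      g0 ^ ((12 : ℤ) • a).1 * ∏ i, g i ^ (((12 : ℤ) • a).2 i) := by
  have h1 : ∀ (x : L) (k : ℤ), (x ^ 12) ^ k = x ^ (12 * k) := by
    intro x k
    rw [zpow_mul]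
    norm_cast
  rw [h1]
  have h2 : ∏ i, (g i ^ 12) ^ (a.2 i) = ∏ i, g i ^ (((12 : ℤ) • a).2 i) := by
    refine Finset.prod_congr rfl fun i _ => ?_
    rw [h1]
    rfl
  rw [h2]
  rfl

theorem st_P12 (hDVB : ST_DVB) : ST_P12 := by
  intro L _ _ P p n g0 g nrm U Z T h hne
  obtain ⟨-, -, -, -, -, -, h7, -, -⟩ := hDVB L P h.pr h.bot
  have h12 : ∀ a, nrm ((12 : ℤ) • a) = 12 * nrm a := by
    intro a
    rw [h.smul]
    norm_num
  have h0 : ∀ a, 0 ≤ nrm a := by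
    intro a
    have e0 : nrm 0 = 0 := by
      have := h.smul 0 0
      rw [zero_smul] at this
      rw [this]
      simp
    have e1 := h.add a ((-1 : ℤ) • a)
    rw [h.smul, neg_one_smul, add_neg_cancel, e0] at e1
    norm_num at e1
    linarith
  have hle : ∀ a, 12 * nrm a ≤ U → nrm a ≤ U := by
    intro a ha
    have := h0 a
    linarith
  refine ⟨h.pr, h.bot, h.pp, h.pm, hne, ?_, h.T1, ?_, ?_, ?_, ?_, ?_, ?_, ?_, ?_⟩
  · have := h7 T g0 12 h.T1 h.T0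
    exact_mod_cast this
  · intro i
    have := h7 1 (g i) 12 le_rfl (h.pu i)
    exact_mod_cast this
  · intro a b
    have := h.add a b
    show 12 * nrm (a + b) ≤ 12 * nrm a + 12 * nrm b
    linarith
  · intro k a
    show 12 * nrm (k • a) = |(k : ℝ)| * (12 * nrm a)
    rw [h.smul]
    ring
  · intro a τ
    show _ ≤ Real.exp (12 * nrm a)
    have := h.conj ((12 : ℤ) • a) τ
    rw [h12, ← p12_val] at this
    exact this
  · intro a
    obtain ⟨q, hq1, hq2, hq3⟩ := h.den ((12 : ℤ) • a)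
    rw [h12] at hq2
    rw [← p12_val] at hq3
    exact ⟨q, hq1, hq2, hq3⟩
  · intro a ha
    exact h.coo a (hle a ha)
  · exact h.fin.subset fun a ha => hle a ha
  · have hfin : {a : ℤ × (Fin n → ℤ) | nrm a ≤ U ∧ g0 ^ a.1 * ∏ i, g i ^ (a.2 i) = 1}.Finite :=
      h.fin.subset fun a ha => ha.1
    have hinj : Function.Injective fun a : ℤ × (Fin n → ℤ) => (12 : ℤ) • a := by
      intro a b hab
      refine Prod.ext ?_ ?_
      · have h1 : (12 : ℤ) * a.1 = 12 * b.1 := congrArg Prod.fst hab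
        omega
      · funext i
        have h1 : (12 : ℤ) * a.2 i = 12 * b.2 i := congrFun (congrArg Prod.snd hab) i
        omega
    have h1 : {a : ℤ × (Fin n → ℤ) | 12 * nrm a ≤ U ∧
        (g0 ^ 12) ^ a.1 * ∏ i, (g i ^ 12) ^ (a.2 i) = 1}.ncard ≤
        {a : ℤ × (Fin n → ℤ) | nrm a ≤ U ∧ g0 ^ a.1 * ∏ i, g i ^ (a.2 i) = 1}.ncard := by
      refine Set.ncard_le_ncard_of_injOn (fun a => (12 : ℤ) • a) ?_ hinj.injOn hfin
      rintro a ⟨ha1, ha2⟩
      refine ⟨?_, ?_⟩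
      · rw [h12]; exact ha1
      · rw [← p12_val]; exact ha2
    calc ({a : ℤ × (Fin n → ℤ) | 12 * nrm a ≤ U ∧
        (g0 ^ 12) ^ a.1 * ∏ i, (g i ^ 12) ^ (a.2 i) = 1}.ncard : ℝ) ≤
        ({a : ℤ × (Fin n → ℤ) | nrm a ≤ U ∧ g0 ^ a.1 * ∏ i, g i ^ (a.2 i) = 1}.ncard : ℝ) :=
          Nat.cast_le.2 h1
      _ ≤ 2 * U + 1 := h.ker

end Pool.Helper99.SZ
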