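import Pool.Agent.Helper99.SZ.Stmts3
import Pool.Agent.Helper35.SZ.PD2

/-! # Module PD3: the `P`-adic size of the interpolation determinant, third version -/

set_option autoImplicit false

namespace Pool.Helper99.SZ

open NumberField

theorem st_PD3 (hPDG : ST_PDG3) (hCMB : ST_CMB) (hCHG : ST_CHG) (hPX3 : ST_PX4)
    (hSHP : ST_SHP3) (hDV : ST_DVB) : ST_PD3 := by
  intro L _ _ P hP hbot p hp hpP n v K Lc T t jj hv hjj V hV J hJ z hz g hg hOD w hT hw hK hLc ht1
    ht2
  have dm := (hDV L P hP hbot).2.1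
  obtain ⟨u, c, hu, hgu⟩ := hOD
  obtain ⟨j1, u', y, α, e, hu', hy, hα, he, hlin⟩ := hSHP L P hP hbot p hp hpP n v jj hv hjj V hV J hJ
    (Sx v K × Fin Lc) z hz u c hu
  obtain ⟨β, hβ, hchg⟩ := hCHG p hp v K j1 α e hα he
  set x : Sx v K × Fin Lc → L := fun r => (∏ i, g i ^ (z r i)) * w r with hx
  have hxd : ∀ r, Dv P T (x r - u' ^ (y r)) := by
    intro r
    rw [hy r]
    exact pd2_x hDV P hP hbot n T hT g u c (z r) (w r) (fun i => dm 1 jj _ hjj (hg i))
      (dm 1 jj _ hjj hu) hgu (hw r)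
  obtain ⟨W, hW1, hW2⟩ := hPX3 L P hP hbot v K T jj j1 (Sx v K × Fin Lc) (fun r i => z r (J i)) y
    x u' hjj hu' hT hxd
  set D : Matrix (Sx v K × Fin Lc) (Sx v K × Fin Lc) L := Matrix.of (fun r j =>
    ((y r : ℤ) : L) ^ (j.1.1 j1 : ℕ) *
      (∏ i ∈ Finset.univ.erase j1, ((z r (J i) : ℤ) : L) ^ (j.1.1 i : ℕ)) *
        x r ^ (j.2 : ℕ)) with hD
  set B : Matrix (Sx v K × Fin Lc) (Sx v K × Fin Lc) L := Matrix.of (fun j' j =>
    if j.2 = j'.2 then ((β j.1 j'.1 : ℚ) : L) else 0) with hB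
  have hfac : (Matrix.of (fun r j : Sx v K × Fin Lc =>
      (∏ i, ((z r (J i) : ℤ) : L) ^ (j.1.1 i : ℕ)) *
        ((∏ i, g i ^ (z r i)) * w r) ^ (j.2 : ℕ))) = D * B := by
    ext r j
    rw [Matrix.mul_apply, Matrix.of_apply]
    have h1 := hchg (fun i => ((z r (J i) : ℤ) : ℚ)) (y r : ℚ) (by
      have := hlin r
      exact this) j.1
    have h2 := congrArg (Rat.cast : ℚ → L) h1
    push_cast at h2
    rw [h2, Fintype.sum_prod_type, Finset.sum_mul]
    apply Finset.sum_congr rfl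
    intro k' _
    rw [Finset.sum_eq_single j.2]
    · simp only [hD, hB, Matrix.of_apply, if_true]
      ring
    · intro l' _ hl'
      simp only [hB, Matrix.of_apply]
      rw [if_neg (Ne.symm hl'), mul_zero]
    · intro h
      exact absurd (Finset.mem_univ _) h
  rw [hfac, Matrix.det_mul]
  obtain ⟨d1, d2, d3, d4, d5, d6, d7, d8, d9⟩ := hDV L P hP hbot
  have hBdet : Dv P 0 B.det := by
    apply pd2_det hDV P hP hbot
    intro i j
    simp only [hB, Matrix.of_apply]
    split_ifs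
    · exact pd2_rat P hP p hp hpP _ (hβ _ _)
    · have := d1 0
      simpa using this
  have hgrp : ∀ k : Sx v K, ((Function.update k.1 j1 0 j1 : Fin (K + 1)) : ℕ) = 0 ∧
      ∑ i, ((Function.update k.1 j1 0 i : Fin (K + 1)) : ℕ) ≤ K := by
    intro k
    refine ⟨by simp, le_trans (Finset.sum_le_sum ?_) k.2⟩
    intro i _
    by_cases hi : i = j1
    · subst hi
      simp
    · rw [Function.update_of_ne hi]
  set grp : Sx v K × Fin Lc → Sb v K j1 := fun r => ⟨Function.update r.1.1 j1 0, hgrp r.1⟩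
    with hgrpd
  have hDdet : Dv P (jj * t) D.det := by
    apply hPDG L P hP hbot (Sx v K × Fin Lc) (Sb v K j1) D K T t jj grp
      (fun r => (r.1.1 j1 : ℕ)) W
    · intro r
      exact Nat.lt_succ_iff.1 (r.1.1 j1).2
    · exact hW1
    · intro n' hn'
      exact hCMB v K Lc t j1 hK hLc ht1 n' hn'
    · exact ht2
    · intro j
      obtain ⟨s, cc, a, ww, ω, err, q1, q2, q3, q4, q5⟩ := hW2 j.1 (grp j) (by
        intro i hi
        simp only [hgrpd]
        rw [Function.update_of_ne hi]) (j.2 : ℕ)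
      exact ⟨s, cc, a, ww, ω, err, q1, q2, q3, q4, fun r => by
        have := q5 r
        simp only [hD, Matrix.of_apply]
        exact this⟩
  have := d5 (jj * t) 0 _ _ hDdet hBdet
  rwa [add_zero] at this

end Pool.Helper99.SZ
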