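import Pool.Agent.Helper99.SZ.Stmts
import Pool.Agent.Helper47.Trs.ZApi

/-!
# The zero estimate on the group `ℤ ^ v` times the multiplicative group
-/

set_option autoImplicit false

namespace Pool.Helper99.SZ

open MvPolynomial Trs Trs.Z

/-- the homomorphism to the vectors `(ζ, lam)` -/
noncomputable def zvf {G : Type} [AddCommGroup G] {v : ℕ} (ζ : G →+ (Fin v → ℤ)) (lam : G →+ ℂ) :
    G →+ (Fin (v + 1) → ℂ) where
  toFun a := vc (ζ a) (lam a)
  map_zero' := by
    funext i
    unfold vc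
    split_ifs
    · rw [map_zero]; simp
    · rw [map_zero]; simp
  map_add' a b := by
    funext i
    rw [Pi.add_apply]
    unfold vc
    split_ifs
    · rw [map_add, Pi.add_apply]; push_cast; rfl
    · rw [map_add]

lemma zv_stb_zero {n : ℕ} (tor : Fin n → Bool) (q : Ideal (Rg n)) : Stb tor q 0 := by
  intro f
  rw [tr_zero]

lemma zv_stb_neg {n : ℕ} {tor : Fin n → Bool} {q : Ideal (Rg n)} {u : Fin n → ℂ}
    (h : Stb tor q u) : Stb tor q (-u) := by
  intro f
  have := h (tr tor (-u) f)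
  rw [tr_tr_neg] at this
  exact this.symm

lemma zv_stb_add {n : ℕ} {tor : Fin n → Bool} {q : Ideal (Rg n)} {u u' : Fin n → ℂ}
    (h : Stb tor q u) (h' : Stb tor q u') : Stb tor q (u + u') := by
  intro f
  rw [← tr_tr]
  exact (h' f).trans (h _)

/-- exponents -/
noncomputable def zve {v K Lc : ℕ} (j : (Fin v → Fin K) × Fin Lc) : Fin (v + 1) →₀ ℕ :=
  Finsupp.equivFunOnFinite.symm
    (Fin.snoc (α := fun _ => ℕ) (fun i => ((j.1 i : Fin K) : ℕ)) ((j.2 : Fin Lc) : ℕ))

lemma zve_castSucc {v K Lc : ℕ} (j : (Fin v → Fin K) × Fin Lc) (i : Fin v) :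
    zve j i.castSucc = (j.1 i : ℕ) := by
  show (Fin.snoc (α := fun _ => ℕ) (fun i => ((j.1 i : Fin K) : ℕ)) ((j.2 : Fin Lc) : ℕ) :
    Fin (v + 1) → ℕ) i.castSucc = _
  rw [Fin.snoc_castSucc]

lemma zve_last {v K Lc : ℕ} (j : (Fin v → Fin K) × Fin Lc) :
    zve j (Fin.last v) = (j.2 : ℕ) := by
  show (Fin.snoc (α := fun _ => ℕ) (fun i => ((j.1 i : Fin K) : ℕ)) ((j.2 : Fin Lc) : ℕ) :
    Fin (v + 1) → ℕ) (Fin.last v) = _
  rw [Fin.snoc_last]

lemma zve_inj {v K Lc : ℕ} : Function.Injective (zve (v := v) (K := K) (Lc := Lc)) := by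
  intro j j' h
  refine Prod.ext ?_ ?_
  · funext i
    have := DFunLike.congr_fun h i.castSucc
    rw [zve_castSucc, zve_castSucc] at this
    exact Fin.ext this
  · have := DFunLike.congr_fun h (Fin.last v)
    rw [zve_last, zve_last] at this
    exact Fin.ext this

/-- the polynomial -/
noncomputable def zvF {v K Lc : ℕ} (x : (Fin v → Fin K) × Fin Lc → ℂ) : Rg (v + 1) :=
  ∑ j, monomial (zve j) (x j)

lemma zvF_coeff {v K Lc : ℕ} (x : (Fin v → Fin K) × Fin Lc → ℂ) (j : (Fin v → Fin K) × Fin Lc) :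
    coeff (zve j) (zvF x) = x j := by
  classical
  unfold zvF
  rw [coeff_sum, Finset.sum_eq_single j]
  · rw [coeff_monomial, if_pos rfl]
  · intro j' _ hj'
    rw [coeff_monomial, if_neg (fun h => hj' (zve_inj h))]
  · intro h
    exact absurd (Finset.mem_univ j) h

lemma zvF_deg {v K Lc : ℕ} (x : (Fin v → Fin K) × Fin Lc → ℂ) (i : Fin (v + 1)) :
    (zvF x).degreeOf i ≤ if i = Fin.last v then Lc else K := by
  classical
  rw [degreeOf_le_iff]
  intro m hm
  rw [mem_support_iff] at hm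
  have : ∃ j : (Fin v → Fin K) × Fin Lc, m = zve j := by
    by_contra hcon
    push Not at hcon
    apply hm
    unfold zvF
    rw [coeff_sum]
    refine Finset.sum_eq_zero fun j _ => ?_
    rw [coeff_monomial, if_neg (fun h => hcon j h.symm)]
  obtain ⟨j, rfl⟩ := this
  refine Fin.lastCases ?_ (fun i => ?_) i
  · rw [zve_last, if_pos rfl]
    exact j.2.2.le
  · rw [zve_castSucc, if_neg (Fin.castSucc_lt_last i).ne]
    exact (j.1 i).2.le

lemma zvF_ev {v K Lc : ℕ} (x : (Fin v → Fin K) × Fin Lc → ℂ) (ζ : Fin v → ℤ) (lam : ℂ) :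
    ev (tv v) (vc ζ lam) (zvF x) = ∑ j : (Fin v → Fin K) × Fin Lc,
      x j * ((∏ i, ((ζ i : ℤ) : ℂ) ^ (j.1 i : ℕ)) * Complex.exp lam ^ (j.2 : ℕ)) := by
  unfold zvF ev
  rw [map_sum]
  refine Finset.sum_congr rfl fun j _ => ?_
  rw [aeval_monomial, Finsupp.prod_fintype _ _ (fun i => pow_zero _), Fin.prod_univ_castSucc]
  rw [zve_last]
  have h1 : tv v (Fin.last v) = true := by simp [tv]
  have h2 : vc ζ lam (Fin.last v) = lam := by
    unfold vc
    rw [dif_neg (by simp)]
  have h3 : ∀ i : Fin v, tv v i.castSucc = false := by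
    intro i
    simp only [tv, decide_eq_false_iff_not]
    exact (Fin.castSucc_lt_last i).ne
  have h4 : ∀ i : Fin v, vc ζ lam i.castSucc = ((ζ i : ℤ) : ℂ) := by
    intro i
    unfold vc
    rw [dif_pos (by simp)]
    rfl
  rw [h1, if_pos rfl, h2]
  have h5 : ∏ i : Fin v, (if tv v i.castSucc = true then Complex.exp (vc ζ lam i.castSucc)
      else vc ζ lam i.castSucc) ^ (zve j i.castSucc) = ∏ i, ((ζ i : ℤ) : ℂ) ^ (j.1 i : ℕ) := by
    refine Finset.prod_congr rfl fun i _ => ?_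
    rw [h3 i, if_neg (by simp), h4 i, zve_castSucc]
  rw [h5]
  rfl

theorem st_ZV (hZCH : ST_ZCH) (hZVQ : ST_ZVQ) : ST_ZV := by
  classical
  intro v hv G _ _ ζ lam K Lc hK hLc x hx S hS0 hSn hvan
  obtain ⟨j0, hj0⟩ := Function.ne_iff.1 hx
  have hF : zvF x ≠ 0 := by
    intro h
    apply hj0
    rw [← zvF_coeff x j0, h, coeff_zero]
    rfl
  obtain ⟨q, hq, hq0, hqk, hcard⟩ := hZCH (v + 1) (tv v) G (zvf ζ lam) S
    (fun i => if i = Fin.last v then Lc else K) hS0 hSn
    (fun i => by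
      show 1 ≤ (if i = Fin.last v then Lc else K)
      split_ifs
      · exact hLc
      · exact hK) (zvF x) hF
    (fun i => zvF_deg x i) (by
      intro l hl hlS
      have h1 := hvan l hl hlS
      show ev (tv v) (vc (ζ l.sum) (lam l.sum)) (zvF x) = 0
      rw [zvF_ev]
      exact h1)
  -- the equivalence relation
  let R : Setoid G :=
    { r := fun a b => Stb (tv v) q (zvf ζ lam (a - b))
      iseqv :=
        { refl := fun a => by
            rw [sub_self, map_zero]
            exact zv_stb_zero _ _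
          symm := fun {a b} h => by
            have := zv_stb_neg h
            rwa [← map_neg, neg_sub] at this
          trans := fun {a b c} h h' => by
            have := zv_stb_add h h'
            rwa [← map_add, sub_add_sub_cancel] at this } }
  let π : G → Quotient R := fun a => Quotient.mk R a
  have hπ : ∀ a b, π a = π b ↔ Stb (tv v) q (zvf ζ lam (a - b)) := fun a b =>
    ⟨fun h => Quotient.exact h, fun h => Quotient.sound h⟩
  obtain ⟨c, hc, hcmax⟩ := Finset.exists_max_image (S.image π)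
    (fun c => (S.filter (fun a => π a = c)).card) ⟨π 0, Finset.mem_image_of_mem _ hS0⟩
  -- representatives
  have hr : ∀ c : Quotient R, ∃ a : G, c ∈ S.image π → a ∈ S ∧ π a = c := by
    intro c
    by_cases h : c ∈ S.image π
    · obtain ⟨a, ha, hac⟩ := Finset.mem_image.1 h
      exact ⟨a, fun _ => ⟨ha, hac⟩⟩
    · exact ⟨0, fun h' => absurd h' h⟩
  choose r hr using hr
  let E : Finset G := (S.image π).image r
  have hEcard : E.card = (S.image π).card := by
    apply Finset.card_image_of_injOn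
    intro a ha b hb hab
    rw [← (hr a ha).2, ← (hr b hb).2, hab]
  have hES : E ⊆ S := by
    intro a ha
    obtain ⟨b, hb, rfl⟩ := Finset.mem_image.1 ha
    exact (hr b hb).1
  have hEst : ∀ g ∈ E, ∀ h ∈ E, Stb (tv v) q (zvf ζ lam (g - h)) → g = h := by
    intro g hg h hh hst
    obtain ⟨a, ha, rfl⟩ := Finset.mem_image.1 hg
    obtain ⟨b, hb, rfl⟩ := Finset.mem_image.1 hh
    rw [← hπ, (hr a ha).2, (hr b hb).2] at hst
    rw [hst]
  have hS1 : S.card ≤ (S.filter (fun a => π a = c)).card * E.card := by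
    rw [hEcard]
    exact Finset.card_le_mul_card_image S _ (fun a ha => hcmax a ha)
  -- the differences
  obtain ⟨hwv, hw2, I, hI, hI2⟩ := hZVQ v K Lc hK hLc q hq hq0 hqk
    {h | ∃ a ∈ S.filter (fun a => π a = c), ∃ b ∈ S.filter (fun a => π a = c),
      h = (ζ (a - b), lam (a - b))} (by
      rintro h ⟨a, ha, b, hb, rfl⟩
      rw [Finset.mem_filter] at ha hb
      exact (hπ a b).1 (ha.2.trans hb.2.symm)) _ rfl
  have hset : {u : Fin v → ℚ | ∃ h ∈ {h : (Fin v → ℤ) × ℂ | ∃ a ∈ S.filter (fun a => π a = c),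
      ∃ b ∈ S.filter (fun a => π a = c), h = (ζ (a - b), lam (a - b))},
      u = fun i => ((h.1 i : ℤ) : ℚ)} =
      {u : Fin v → ℚ | ∃ a ∈ S.filter (fun a => π a = c), ∃ b ∈ S.filter (fun a => π a = c),
        u = fun i => ((ζ (a - b) i : ℤ) : ℚ)} := by
    ext u
    constructor
    · rintro ⟨h, ⟨a, ha, b, hb, rfl⟩, rfl⟩
      exact ⟨a, ha, b, hb, rfl⟩
    · rintro ⟨a, ha, b, hb, rfl⟩
      exact ⟨_, ⟨a, ha, b, hb, rfl⟩, rfl⟩
  refine ⟨S.filter (fun a => π a = c), Finset.filter_subset _ _, ?_, _, hwv, ?_, ?_, ?_⟩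
  · obtain ⟨a, ha, hac⟩ := Finset.mem_image.1 hc
    exact ⟨a, Finset.mem_filter.2 ⟨ha, hac⟩⟩
  · exact congrArg (fun s : Set (Fin v → ℚ) => Module.finrank ℚ (Submodule.span ℚ s)) hset
  · have h1 := hcard I hI E hES hEst
    have h2 := h1.trans (Nat.mul_le_mul_left _ hI2)
    calc S.card ≤ (S.filter (fun a => π a = c)).card * E.card := hS1
      _ ≤ (S.filter (fun a => π a = c)).card * _ := Nat.mul_le_mul_left _ h2
      _ = _ := by
        unfold Trs.KZ
        rw [mul_comm]
  · intro hw a ha b hb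
    exact hw2 hw _ ⟨a, ha, b, hb, rfl⟩

end Pool.Helper99.SZ
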