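import Pool.Agent.Helper99.SZ.Stmts2
import Pool.Agent.Helper47.Trs.ZApi

/-!
# The zero estimate on the group `ℤ ^ v` times the multiplicative group, second form
-/

set_option autoImplicit false

namespace Pool.Helper99.SZ

open MvPolynomial Trs Trs.Z

/-- the homomorphism to the vectors `(ζ, lam)` -/
noncomputable def zv2f {G : Type} [AddCommGroup G] {v : ℕ} (ζ : G →+ (Fin v → ℤ)) (lam : G →+ ℂ) :
    G →+ (Fin (v + 1) → ℂ) where
  toFun a := vc (ζ a) (lam a)
  map_zero' := by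
    funext i
    unfold vc
    split_ifs
    · rw [map_zero]; simp
    · rw [map_zero]; simp
  map_add' a b := by
    funext i
    rw [Pi.add_apply]
    unfold vc
    split_ifs
    · rw [map_add, Pi.add_apply]; push_cast; rfl
    · rw [map_add]

lemma zv2_stb_zero {n : ℕ} (tor : Fin n → Bool) (q : Ideal (Rg n)) : Stb tor q 0 := by
  intro f
  rw [tr_zero]

lemma zv2_stb_neg {n : ℕ} {tor : Fin n → Bool} {q : Ideal (Rg n)} {u : Fin n → ℂ}
    (h : Stb tor q u) : Stb tor q (-u) := by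
  intro f
  have := h (tr tor (-u) f)
  rw [tr_tr_neg] at this
  exact this.symm

lemma zv2_stb_add {n : ℕ} {tor : Fin n → Bool} {q : Ideal (Rg n)} {u u' : Fin n → ℂ}
    (h : Stb tor q u) (h' : Stb tor q u') : Stb tor q (u + u') := by
  intro f
  rw [← tr_tr]
  exact (h' f).trans (h _)

/-- exponents -/
noncomputable def zv2e {v K Lc : ℕ} (j : Sx v K × Fin Lc) : Fin (v + 1) →₀ ℕ :=
  Finsupp.equivFunOnFinite.symm
    (Fin.snoc (α := fun _ => ℕ) (fun i => ((j.1.1 i : Fin (K + 1)) : ℕ)) ((j.2 : Fin Lc) : ℕ))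

lemma zv2e_castSucc {v K Lc : ℕ} (j : Sx v K × Fin Lc) (i : Fin v) :
    zv2e j i.castSucc = (j.1.1 i : ℕ) := by
  show (Fin.snoc (α := fun _ => ℕ) (fun i => ((j.1.1 i : Fin (K + 1)) : ℕ))
    ((j.2 : Fin Lc) : ℕ) : Fin (v + 1) → ℕ) i.castSucc = _
  rw [Fin.snoc_castSucc]

lemma zv2e_last {v K Lc : ℕ} (j : Sx v K × Fin Lc) :
    zv2e j (Fin.last v) = (j.2 : ℕ) := by
  show (Fin.snoc (α := fun _ => ℕ) (fun i => ((j.1.1 i : Fin (K + 1)) : ℕ))
    ((j.2 : Fin Lc) : ℕ) : Fin (v + 1) → ℕ) (Fin.last v) = _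
  rw [Fin.snoc_last]

lemma zv2e_inj {v K Lc : ℕ} : Function.Injective (zv2e (v := v) (K := K) (Lc := Lc)) := by
  intro j j' h
  refine Prod.ext (Subtype.ext ?_) ?_
  · funext i
    have := DFunLike.congr_fun h i.castSucc
    rw [zv2e_castSucc, zv2e_castSucc] at this
    exact Fin.ext this
  · have := DFunLike.congr_fun h (Fin.last v)
    rw [zv2e_last, zv2e_last] at this
    exact Fin.ext this

/-- the polynomial -/
noncomputable def zv2F {v K Lc : ℕ} (x : Sx v K × Fin Lc → ℂ) : Rg (v + 1) :=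
  ∑ j, monomial (zv2e j) (x j)

lemma zv2F_coeff {v K Lc : ℕ} (x : Sx v K × Fin Lc → ℂ) (j : Sx v K × Fin Lc) :
    coeff (zv2e j) (zv2F x) = x j := by
  classical
  unfold zv2F
  rw [coeff_sum, Finset.sum_eq_single j]
  · rw [coeff_monomial, if_pos rfl]
  · intro j' _ hj'
    rw [coeff_monomial, if_neg (fun h => hj' (zv2e_inj h))]
  · intro h
    exact absurd (Finset.mem_univ j) h

lemma zv2F_deg {v K Lc : ℕ} (x : Sx v K × Fin Lc → ℂ) (i : Fin (v + 1)) :
    (zv2F x).degreeOf i ≤ if i = Fin.last v then Lc else K := by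
  classical
  rw [degreeOf_le_iff]
  intro m hm
  rw [mem_support_iff] at hm
  have : ∃ j : Sx v K × Fin Lc, m = zv2e j := by
    by_contra hcon
    push Not at hcon
    apply hm
    unfold zv2F
    rw [coeff_sum]
    refine Finset.sum_eq_zero fun j _ => ?_
    rw [coeff_monomial, if_neg (fun h => hcon j h.symm)]
  obtain ⟨j, rfl⟩ := this
  refine Fin.lastCases ?_ (fun i => ?_) i
  · rw [zv2e_last, if_pos rfl]
    exact j.2.2.le
  · rw [zv2e_castSucc, if_neg (Fin.castSucc_lt_last i).ne]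
    exact Nat.lt_succ_iff.1 (j.1.1 i).2

lemma zv2F_ev {v K Lc : ℕ} (x : Sx v K × Fin Lc → ℂ) (ζ : Fin v → ℤ) (lam : ℂ) :
    ev (tv v) (vc ζ lam) (zv2F x) = ∑ j : Sx v K × Fin Lc,
      x j * ((∏ i, ((ζ i : ℤ) : ℂ) ^ (j.1.1 i : ℕ)) * Complex.exp lam ^ (j.2 : ℕ)) := by
  unfold zv2F ev
  rw [map_sum]
  refine Finset.sum_congr rfl fun j _ => ?_
  rw [aeval_monomial, Finsupp.prod_fintype _ _ (fun i => pow_zero _), Fin.prod_univ_castSucc]
  rw [zv2e_last]
  have h1 : tv v (Fin.last v) = true := by simp [tv]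
  have h2 : vc ζ lam (Fin.last v) = lam := by
    unfold vc
    rw [dif_neg (by simp)]
  have h3 : ∀ i : Fin v, tv v i.castSucc = false := by
    intro i
    simp only [tv, decide_eq_false_iff_not]
    exact (Fin.castSucc_lt_last i).ne
  have h4 : ∀ i : Fin v, vc ζ lam i.castSucc = ((ζ i : ℤ) : ℂ) := by
    intro i
    unfold vc
    rw [dif_pos (by simp)]
    rfl
  rw [h1, if_pos rfl, h2]
  have h5 : ∏ i : Fin v, (if tv v i.castSucc = true then Complex.exp (vc ζ lam i.castSucc)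
      else vc ζ lam i.castSucc) ^ (zv2e j i.castSucc) = ∏ i, ((ζ i : ℤ) : ℂ) ^ (j.1.1 i : ℕ) := by
    refine Finset.prod_congr rfl fun i _ => ?_
    rw [h3 i, if_neg (by simp), h4 i, zv2e_castSucc]
  rw [h5]
  rfl

theorem st_ZV2 (hZC2 : ST_ZC2) (hZQ2 : ST_ZQ2) : ST_ZV2 := by
  classical
  intro v hv G _ _ ζ lam K Lc hK hLc x hx S hS0 hSn hvan
  obtain ⟨j0, hj0⟩ := Function.ne_iff.1 hx
  have hF : zv2F x ≠ 0 := by
    intro h
    apply hj0
    rw [← zv2F_coeff x j0, h, coeff_zero]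
    rfl
  obtain ⟨q, hq, hq0, hqk, hcard⟩ := hZC2 (v + 1) (tv v) G (zv2f ζ lam) S
    (fun i => if i = Fin.last v then Lc else K) hS0 hSn
    (fun i => by
      show 1 ≤ (if i = Fin.last v then Lc else K)
      split_ifs
      · exact hLc
      · exact hK) (zv2F x) hF
    (fun i => zv2F_deg x i) (by
      intro l hl hlS
      have h1 := hvan l hl hlS
      show ev (tv v) (vc (ζ l.sum) (lam l.sum)) (zv2F x) = 0
      rw [zv2F_ev]
      exact h1)
  -- the subgroup
  let H : AddSubgroup G :=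
    { carrier := {a | Stb (tv v) q (zv2f ζ lam a)}
      zero_mem' := by
        show Stb (tv v) q (zv2f ζ lam 0)
        rw [map_zero]
        exact zv2_stb_zero _ _
      add_mem' := by
        intro a b ha hb
        show Stb (tv v) q (zv2f ζ lam (a + b))
        rw [map_add]
        exact zv2_stb_add ha hb
      neg_mem' := by
        intro a ha
        show Stb (tv v) q (zv2f ζ lam (-a))
        rw [map_neg]
        exact zv2_stb_neg ha }
  have hH : ∀ a, a ∈ H ↔ Stb (tv v) q (zv2f ζ lam a) := fun a => Iff.rfl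
  obtain ⟨hwv, hw2, I, hI, hI1, hI2⟩ := hZQ2 v K Lc hK hLc q hq hq0 hqk
    {h | ∃ a ∈ H, h = (ζ a, lam a)} (by
      rintro h ⟨a, ha, rfl⟩
      exact (hH a).1 ha) _ rfl
  have hset : {u : Fin v → ℚ | ∃ h ∈ {h : (Fin v → ℤ) × ℂ | ∃ a ∈ H, h = (ζ a, lam a)},
      u = fun i => ((h.1 i : ℤ) : ℚ)} =
      {u : Fin v → ℚ | ∃ a ∈ H, u = fun i => ((ζ a i : ℤ) : ℚ)} := by
    ext u
    constructor
    · rintro ⟨h, ⟨a, ha, rfl⟩, rfl⟩
      exact ⟨a, ha, rfl⟩
    · rintro ⟨a, ha, rfl⟩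
      exact ⟨_, ⟨a, ha, rfl⟩, rfl⟩
  refine ⟨H, _, hwv, ?_, ?_, ?_⟩
  · exact congrArg (fun s : Set (Fin v → ℚ) => Module.finrank ℚ (Submodule.span ℚ s)) hset
  · intro E hES hE
    have h1 := hcard I hI E hES (fun g hg h hh hst => hE g hg h hh ((hH _).2 hst))
    exact h1.trans (Nat.mul_le_mul (Nat.factorial_le hI1) hI2)
  · intro hw a ha
    exact hw2 hw _ ⟨a, ha, rfl⟩

end Pool.Helper99.SZ
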